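import Mathlib
import Pool.Agent.H88.AQ.Iface
import Pool.Agent.H1.LC.LC2

set_option autoImplicit false

/-!
# AQ (MP_b39724), chapter (W2#), LOC: the involution on integers, blocks, brackets and ideals
-/

open scoped NumberField
open H88.A4 Pool.Agent.H67.WA H88.WS H88.AQ

namespace H83.AQ

set_option linter.unusedSectionVars false

variable {k M : Type} [Field k] [NumberField k] [Field M] [NumberField M] [Algebra k M]

theorem tR_apply (τ : M ≃ₐ[k] M) (x : 𝓞 M) : tR τ x = tO τ x := rfl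

theorem tO_inv {τ : M ≃ₐ[k] M} (hτ : Invo k M τ) (x : 𝓞 M) : tO τ (tO τ x) = x :=
  NumberField.RingOfIntegers.ext (by rw [tO_coe, tO_coe, hτ.inv])

theorem tO_add (τ : M ≃ₐ[k] M) (x y : 𝓞 M) : tO τ (x + y) = tO τ x + tO τ y := map_add (tR τ) x y

theorem tO_sub (τ : M ≃ₐ[k] M) (x y : 𝓞 M) : tO τ (x - y) = tO τ x - tO τ y := map_sub (tR τ) x y

theorem tO_mul (τ : M ≃ₐ[k] M) (x y : 𝓞 M) : tO τ (x * y) = tO τ x * tO τ y := map_mul (tR τ) x y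

theorem tO_pow (τ : M ≃ₐ[k] M) (x : 𝓞 M) (n : ℕ) : tO τ (x ^ n) = tO τ x ^ n := map_pow (tR τ) x n

theorem tO_nat (τ : M ≃ₐ[k] M) (n : ℕ) : tO τ (n : 𝓞 M) = n := map_natCast (tR τ) n

theorem tO_alg (τ : M ≃ₐ[k] M) (x : 𝓞 k) : tO τ (algebraMap (𝓞 k) (𝓞 M) x) = algebraMap (𝓞 k) (𝓞 M) x := by
  apply NumberField.RingOfIntegers.ext
  rw [tO_coe]
  have h : ((algebraMap (𝓞 k) (𝓞 M) x : 𝓞 M) : M) = algebraMap k M (x : k) := rfl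
  rw [h]
  exact τ.commutes _

theorem bk_D1 (τ : M ≃ₐ[k] M) (b : T3 M) : (bk τ b).D1 = dt b := rfl

theorem bk_D3 (τ : M ≃ₐ[k] M) (b : T3 M) : (bk τ b).D3 = tO τ (bk τ b).D1 := by
  simp only [bk, Blk.D1, Blk.D3, ← tR_apply, map_sub, map_mul, map_pow]

theorem bk_D2 {τ : M ≃ₐ[k] M} (hτ : Invo k M τ) (b : T3 M) : tO τ (bk τ b).D2 = (bk τ b).D2 := by
  have h : ∀ x : 𝓞 M, tR τ (tO τ x) = x := tO_inv hτ
  rw [← tR_apply]
  simp only [bk, Blk.D2, map_sub, map_add, map_mul, map_ofNat, h]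
  simp only [tR_apply]
  ring

theorem bk_E {τ : M ≃ₐ[k] M} (hτ : Invo k M τ) (b : T3 M) : tO τ (bk τ b).E = (bk τ b).E := by
  rw [Blk.E, tO_sub, tO_mul, tO_pow, bk_D2 hτ, bk_D3, tO_inv hτ]
  ring

theorem E2_eq (τ : M ≃ₐ[k] M) (b : T3 M) : E2 τ b = (bk τ b).E := rfl

theorem bk_br {τ : M ≃ₐ[k] M} (hτ : Invo k M τ) (b : T3 M) {π π' : Row (𝓞 M)} (h : π.Cj τ) (h' : π'.Cj τ) :
    tO τ ((bk τ b).br π π') = (bk τ b).br π π' := by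
  obtain ⟨h1, h2⟩ := h
  obtain ⟨h3, h4⟩ := h'
  rw [Blk.br, bk_D3, h1, h2, h3, h4]
  simp only [bk, Blk.D1, tO_sub, tO_add, tO_mul, tO_pow, tO_inv hτ]
  ring

/-- the elements fixed by `τ` come from `𝓞 k` -/
theorem exists_of_fix {τ : M ≃ₐ[k] M} (hτ : Invo k M τ) {x : 𝓞 M} (h : tO τ x = x) :
    ∃ e : 𝓞 k, algebraMap (𝓞 k) (𝓞 M) e = x := by
  have h1 : τ (x : M) = (x : M) := by rw [← tO_coe, h]
  obtain ⟨y, hy⟩ := (hτ.fix _).1 h1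
  have hint : IsIntegral ℤ y := by
    have h2 : IsIntegral ℤ (algebraMap k M y) := by
      rw [hy]
      exact x.2
    exact (isIntegral_algebraMap_iff (algebraMap k M).injective).1 h2
  refine ⟨⟨y, hint⟩, ?_⟩
  apply NumberField.RingOfIntegers.ext
  exact hy

theorem ek_spec {τ : M ≃ₐ[k] M} (hτ : Invo k M τ) (b : T3 M) :
    algebraMap (𝓞 k) (𝓞 M) (ek τ b) = (bk τ b).E := by
  have h : ∃ e : 𝓞 k, algebraMap (𝓞 k) (𝓞 M) e = E2 τ b := exists_of_fix hτ (bk_E hτ b)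
  rw [ek, dif_pos h]
  exact h.choose_spec

theorem mem_cI (τ : M ≃ₐ[k] M) (h : Ideal (𝓞 M)) (x : 𝓞 M) : x ∈ cI τ h ↔ tO τ x ∈ h := Iff.rfl

theorem cI_cI {τ : M ≃ₐ[k] M} (hτ : Invo k M τ) (h : Ideal (𝓞 M)) : cI τ (cI τ h) = h := by
  ext x
  rw [mem_cI, mem_cI, tO_inv hτ]

theorem cI_le {τ : M ≃ₐ[k] M} (hτ : Invo k M τ) {g h : Ideal (𝓞 M)} : cI τ g ≤ h ↔ g ≤ cI τ h := by
  constructor
  · intro hh x hx
    rw [mem_cI]
    apply hh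
    rw [mem_cI, tO_inv hτ]
    exact hx
  · intro hh x hx
    have h1 : tO τ (tO τ x) ∈ h := hh hx
    rw [tO_inv hτ] at h1
    exact h1

theorem cI_pow_aux (τ : M ≃ₐ[k] M) (h : Ideal (𝓞 M)) (n : ℕ) {x : 𝓞 M} (hx : x ∈ cI τ h ^ n) :
    tO τ x ∈ h ^ n := by
  have h1 : tR τ x ∈ Ideal.map (tR τ) (cI τ h ^ n) := Ideal.mem_map_of_mem _ hx
  rw [Ideal.map_pow] at h1
  exact Ideal.pow_right_mono Ideal.map_comap_le n h1

theorem mem_cI_pow {τ : M ≃ₐ[k] M} (hτ : Invo k M τ) (h : Ideal (𝓞 M)) (n : ℕ) (x : 𝓞 M) :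
    x ∈ cI τ h ^ n ↔ tO τ x ∈ h ^ n := by
  refine ⟨cI_pow_aux τ h n, fun hx => ?_⟩
  rw [← cI_cI hτ h] at hx
  have := cI_pow_aux τ (cI τ h) n hx
  rwa [tO_inv hτ] at this

theorem mem_mul_cI {τ : M ≃ₐ[k] M} (hτ : Invo k M τ) (g : Ideal (𝓞 M)) {x : 𝓞 M} (hx : x ∈ g * cI τ g) :
    tO τ x ∈ g * cI τ g := by
  have h1 : tR τ x ∈ Ideal.map (tR τ) (g * cI τ g) := Ideal.mem_map_of_mem _ hx
  rw [Ideal.map_mul] at h1
  have h2 : Ideal.map (tR τ) g ≤ cI τ g := by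
    rw [Ideal.map_le_iff_le_comap]
    change g ≤ cI τ (cI τ g)
    rw [cI_cI hτ]
  have h3 : Ideal.map (tR τ) (cI τ g) ≤ g := Ideal.map_comap_le
  have h4 := Ideal.mul_mono h2 h3 h1
  rwa [mul_comm] at h4

end H83.AQ
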