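import Mathlib
import Pool.Agent.H83.AQ.Cj

set_option autoImplicit false

/-!
# AQ (MP_b39724), chapter (W2#), LOC: orders at the primes of `M` of elements of `k`
-/

open scoped NumberField
open H88.A4 Pool.Agent.H67.WA H88.WS H88.AQ IsDedekindDomain
open Pool.Agent.H28.FP (od mem_iff mem_od)

namespace H83.AQ

set_option linter.unusedSectionVars false

variable {k M : Type} [Field k] [NumberField k] [Field M] [NumberField M] [Algebra k M]

/-- the prime of `k` under `w` -/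
noncomputable def lo (k : Type) {M : Type} [Field k] [NumberField k] [Field M] [NumberField M] [Algebra k M]
    (w : HeightOneSpectrum (𝓞 M)) : HeightOneSpectrum (𝓞 k) := w.under (𝓞 k)

theorem lo_ideal (w : HeightOneSpectrum (𝓞 M)) :
    (lo k w).asIdeal = w.asIdeal.comap (algebraMap (𝓞 k) (𝓞 M)) := rfl

theorem mem_lo (w : HeightOneSpectrum (𝓞 M)) (x : 𝓞 k) :
    x ∈ (lo k w).asIdeal ↔ algebraMap (𝓞 k) (𝓞 M) x ∈ w.asIdeal := Iff.rfl

instance lo_over (w : HeightOneSpectrum (𝓞 M)) : w.asIdeal.LiesOver (lo k w).asIdeal := ⟨rfl⟩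

theorem alg_ne (x : 𝓞 k) (hx : x ≠ 0) : algebraMap (𝓞 k) (𝓞 M) x ≠ 0 := by
  intro h
  exact hx ((map_eq_zero_iff _ (FaithfulSMul.algebraMap_injective (𝓞 k) (𝓞 M))).1 h)

/-- order at `w` of an element of `k` -/
theorem od_alg (w : HeightOneSpectrum (𝓞 M)) {x : 𝓞 k} (hx : x ≠ 0) :
    od w (algebraMap (𝓞 k) (𝓞 M) x) = (lo k w).asIdeal.ramificationIdx' w.asIdeal * od (lo k w) x := by
  have h := HeightOneSpectrum.intValuation_liesOver (lo k w) w x
  rw [Pool.Agent.H28.FP.iv_eq w (alg_ne x hx), Pool.Agent.H28.FP.iv_eq (lo k w) hx, ← WithZero.exp_nsmul,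
    WithZero.exp_inj] at h
  have h1 : ((lo k w).asIdeal.ramificationIdx' w.asIdeal : ℤ) * (od (lo k w) x : ℤ) = od w (algebraMap (𝓞 k) (𝓞 M) x) := by
    simp only [nsmul_eq_mul] at h
    linarith
  exact_mod_cast h1.symm

theorem ram_le {τ : M ≃ₐ[k] M} (hτ : Invo k M τ) (w : HeightOneSpectrum (𝓞 M)) :
    (lo k w).asIdeal.ramificationIdx' w.asIdeal ≤ 2 := by
  have h1 := w.isPrime
  have h2 := (lo k w).isMaximal
  have h3 : NoZeroSMulDivisors (𝓞 k) (𝓞 M) := ⟨fun {c x} h => by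
    rw [Algebra.smul_def, mul_eq_zero] at h
    exact h.imp (fun h => (map_eq_zero_iff _ (FaithfulSMul.algebraMap_injective (𝓞 k) (𝓞 M))).1 h) id⟩
  rw [← hτ.deg]
  exact Ideal.ramificationIdx_le_finrank (𝓞 M) k M w.asIdeal

/-- the conjugate prime -/
def cw {τ : M ≃ₐ[k] M} (hτ : Invo k M τ) (w : HeightOneSpectrum (𝓞 M)) : HeightOneSpectrum (𝓞 M) where
  asIdeal := cI τ w.asIdeal
  isPrime := by
    have := w.isPrime
    exact Ideal.IsPrime.comap (tR τ)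
  ne_bot := by
    intro h
    apply w.ne_bot
    rw [← cI_cI hτ w.asIdeal, h, eq_bot_iff]
    intro x hx
    rw [mem_cI, Submodule.mem_bot] at hx
    rw [Submodule.mem_bot, ← tO_inv hτ x, hx]
    exact map_zero (tR τ)

theorem mem_cw {τ : M ≃ₐ[k] M} (hτ : Invo k M τ) (w : HeightOneSpectrum (𝓞 M)) (n : ℕ) (x : 𝓞 M) :
    x ∈ (cw hτ w).asIdeal ^ n ↔ tO τ x ∈ w.asIdeal ^ n := mem_cI_pow hτ w.asIdeal n x

theorem mem_cw1 {τ : M ≃ₐ[k] M} (hτ : Invo k M τ) (w : HeightOneSpectrum (𝓞 M)) (x : 𝓞 M) :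
    x ∈ (cw hτ w).asIdeal ↔ tO τ x ∈ w.asIdeal := Iff.rfl

theorem lo_cw {τ : M ≃ₐ[k] M} (hτ : Invo k M τ) (w : HeightOneSpectrum (𝓞 M)) : lo k (cw hτ w) = lo k w := by
  apply HeightOneSpectrum.ext
  ext x
  rw [mem_lo, mem_cw1, tO_alg, mem_lo]

theorem tO_ne {τ : M ≃ₐ[k] M} (hτ : Invo k M τ) {x : 𝓞 M} (hx : x ≠ 0) : tO τ x ≠ 0 := by
  intro h
  apply hx
  rw [← tO_inv hτ x, h]
  exact map_zero (tR τ)

theorem od_cw {τ : M ≃ₐ[k] M} (hτ : Invo k M τ) (w : HeightOneSpectrum (𝓞 M)) {x : 𝓞 M} (hx : x ≠ 0) :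
    od (cw hτ w) x = od w (tO τ x) := by
  have h1 : ∀ n, n ≤ od (cw hτ w) x ↔ n ≤ od w (tO τ x) := by
    intro n
    rw [← mem_iff (cw hτ w) hx, mem_cw, mem_iff w (tO_ne hτ hx)]
  exact le_antisymm ((h1 _).1 le_rfl) ((h1 _).2 le_rfl)

/-- the primes over a prime of `k` are conjugate -/
theorem over_eq {τ : M ≃ₐ[k] M} (hτ : Invo k M τ) {w w' : HeightOneSpectrum (𝓞 M)} (h : lo k w' = lo k w) :
    w' = w ∨ w' = cw hτ w := by
  by_contra hcon
  push Not at hcon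
  have hp := w.isPrime
  have hp' := w'.isPrime
  have h1 : ¬ (w'.asIdeal : Set (𝓞 M)) ⊆ (w.asIdeal : Set (𝓞 M)) ∪ ((cw hτ w).asIdeal : Set (𝓞 M)) := by
    intro hs
    rcases (Ideal.subset_union (I := w'.asIdeal) (J := w.asIdeal) (K := (cw hτ w).asIdeal)).1 hs with h2 | h2
    · exact hcon.1 (HeightOneSpectrum.ext (w'.isMaximal.eq_of_le w.isPrime.ne_top h2))
    · exact hcon.2 (HeightOneSpectrum.ext (w'.isMaximal.eq_of_le (cw hτ w).isPrime.ne_top h2))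
  rw [Set.not_subset] at h1
  obtain ⟨x, hx, hx2⟩ := h1
  have hxw : x ∉ w.asIdeal := fun h3 => hx2 (Or.inl h3)
  have hxc : tO τ x ∉ w.asIdeal := fun h3 => hx2 (Or.inr h3)
  obtain ⟨e, he⟩ := exists_of_fix hτ (x := x * tO τ x) (by rw [tO_mul, tO_inv hτ, mul_comm])
  have h4 : e ∈ (lo k w').asIdeal := by
    rw [mem_lo, he]
    exact Ideal.mul_mem_right _ _ hx
  rw [h, mem_lo, he] at h4
  rcases hp.mem_or_mem h4 with h5 | h5
  · exact hxw h5
  · exact hxc h5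

/-- unramified at the primes that do not contain `3` -/
theorem ram_one {τ : M ≃ₐ[k] M} {ω : M} (hτ : Omk τ ω) (w : HeightOneSpectrum (𝓞 M)) (h3 : (3 : 𝓞 M) ∉ w.asIdeal) :
    (lo k w).asIdeal.ramificationIdx' w.asIdeal = 1 := by
  obtain ⟨hi, hω, hω2⟩ := hτ
  have hp := w.isPrime
  have hne : (lo k w).asIdeal.ramificationIdx' w.asIdeal ≠ 0 :=
    Ideal.IsDedekindDomain.ramificationIdx'_ne_zero_of_liesOver w.asIdeal (lo k w).ne_bot
  by_contra hcon
  have h2 : 2 ≤ (lo k w).asIdeal.ramificationIdx' w.asIdeal := by omega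
  have hle : Ideal.map (algebraMap (𝓞 k) (𝓞 M)) (lo k w).asIdeal ≤ w.asIdeal ^ 2 :=
    Ideal.le_pow_of_le_ramificationIdx' h2
  -- the integer `ω`
  have hωi : IsIntegral ℤ ω := hω.isIntegral (by norm_num)
  set o : 𝓞 M := ⟨ω, hωi⟩ with ho
  have ho3 : o ^ 3 = 1 := NumberField.RingOfIntegers.ext hω.pow_eq_one
  have ho1 : o ^ 2 + o + 1 = 0 := by
    have h5 : (o - 1) * (o ^ 2 + o + 1) = 0 := by
      have : (o - 1) * (o ^ 2 + o + 1) = o ^ 3 - 1 := by ring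
      rw [this, ho3, sub_self]
    rcases mul_eq_zero.1 h5 with h6 | h6
    · exfalso
      have h7 : ω = 1 := by
        have h8 : o = 1 := sub_eq_zero.1 h6
        have := congrArg (fun y : 𝓞 M => (y : M)) h8
        exact this
      exact hω.ne_one (by norm_num) h7
    · exact h6
  have hto : tO τ o = o ^ 2 := NumberField.RingOfIntegers.ext hω2
  -- `3 y ∈ l 𝓞 M` for `y ∈ w ∩ τ w`
  have key : ∀ y : 𝓞 M, y ∈ w.asIdeal → tO τ y ∈ w.asIdeal → y ∈ w.asIdeal ^ 2 := by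
    intro y hy hy2
    obtain ⟨e1, he1⟩ := exists_of_fix hi (x := y + tO τ y) (by rw [tO_add, tO_inv hi, add_comm])
    obtain ⟨e2, he2⟩ := exists_of_fix hi (x := o * y + tO τ o * tO τ y)
      (by rw [tO_add, tO_mul, tO_mul, tO_inv hi, tO_inv hi, add_comm])
    have m1 : y + tO τ y ∈ w.asIdeal ^ 2 := by
      rw [← he1]
      apply hle
      apply Ideal.mem_map_of_mem
      rw [mem_lo, he1]
      exact Ideal.add_mem _ hy hy2
    have m2 : o * y + tO τ o * tO τ y ∈ w.asIdeal ^ 2 := by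
      rw [← he2]
      apply hle
      apply Ideal.mem_map_of_mem
      rw [mem_lo, he2]
      exact Ideal.add_mem _ (Ideal.mul_mem_left _ _ hy) (Ideal.mul_mem_left _ _ hy2)
    have m3 : 3 * y ∈ w.asIdeal ^ 2 := by
      have e : 3 * y = -(o ^ 2 - o) * (o ^ 2 * (y + tO τ y) - (o * y + tO τ o * tO τ y)) := by
        rw [hto]
        linear_combination (y * (o ^ 2 - 3 * o + 3)) * ho1
      rw [e]
      exact Ideal.mul_mem_left _ _ (Ideal.sub_mem _ (Ideal.mul_mem_left _ _ m1) m2)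
    exact Pool.Agent.H28.FP.cancel w h3 m3
  -- an element of `w` not in `w ^ 2`
  obtain ⟨y, hy, hy2⟩ : ∃ y ∈ w.asIdeal, y ∉ w.asIdeal ^ 2 := by
    have h5 : w.asIdeal ^ 2 < w.asIdeal := by
      have := Ideal.pow_succ_lt_pow w.ne_bot 1
      simpa using this
    exact SetLike.exists_of_lt h5
  by_cases hc : cw hi w = w
  · apply hy2
    apply key y hy
    rw [← mem_cw1 hi, hc]
    exact hy
  · obtain ⟨z, hz, hz2⟩ : ∃ z ∈ (cw hi w).asIdeal, z ∉ w.asIdeal := by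
      by_contra hno
      push Not at hno
      apply hc
      exact HeightOneSpectrum.ext ((cw hi w).isMaximal.eq_of_le w.isPrime.ne_top hno)
    have h6 : z * y ∈ w.asIdeal ^ 2 := by
      apply key
      · exact Ideal.mul_mem_left _ _ hy
      · rw [tO_mul]
        exact Ideal.mul_mem_right _ _ hz
    exact hy2 (Pool.Agent.H28.FP.cancel w hz2 h6)

theorem od_le {τ : M ≃ₐ[k] M} (hτ : Invo k M τ) (w : HeightOneSpectrum (𝓞 M)) {x : 𝓞 k} (hx : x ≠ 0) :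
    od w (algebraMap (𝓞 k) (𝓞 M) x) ≤ 2 * od (lo k w) x := by
  rw [od_alg w hx]
  exact Nat.mul_le_mul_right _ (ram_le hτ w)

theorem od_eq' {τ : M ≃ₐ[k] M} {ω : M} (hτ : Omk τ ω) (w : HeightOneSpectrum (𝓞 M)) (h3 : (3 : 𝓞 M) ∉ w.asIdeal)
    {x : 𝓞 k} (hx : x ≠ 0) : od w (algebraMap (𝓞 k) (𝓞 M) x) = od (lo k w) x := by
  rw [od_alg w hx, ram_one hτ w h3, one_mul]

end H83.AQ
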