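import Mathlib
import Pool.Agent.H83.AQ.Ram

set_option autoImplicit false

/-!
# AQ (MP_b39724), chapter (W2#): `Loc3Stmt` (classes at the finite places)

PROOF. `g` is the product of the primes `w` of `M` with `6 m0 ∉ w`, `b ∈ w`, `det c ∈ w`, not `c ∈ w` (`c = τ b`). For a prime `l` of `k`
choose one prime `w` over `l` (a prime with `g ≤ w`, or a prime with `Inr`, if there is one) and take the classes of `H1/LC` at `w`. The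
bracket of two conjugate rows is fixed by `τ`, so the divisibility passes to the conjugate prime, and the primes over `l` are `w` and `τ w`
(`over_eq`). At the primes that do not contain `3` the order of `E` at `w` is the order at `l` (`od_eq'`), in general it is at most twice
the order (`od_le`).
-/

open scoped NumberField
open H88.A4 Pool.Agent.H67.WA H88.WS H88.AQ IsDedekindDomain
open Pool.Agent.H28.FP (od mem_iff mem_od)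

namespace H83.AQ

set_option linter.unusedSectionVars false

theorem exists_g {O : Type} [CommRing O] [IsDedekindDomain O] (β : Blk O) (hE : β.E ≠ 0) (m : O) :
    ∃ g : Ideal O, Squarefree g ∧ (β.b1 ∈ g ∧ β.b2 ∈ g ∧ β.b3 ∈ g) ∧
      ∀ l : HeightOneSpectrum O, g ≤ l.asIdeal ↔ (m ∉ l.asIdeal ∧ (β.b1 ∈ l.asIdeal ∧ β.b2 ∈ l.asIdeal ∧
        β.b3 ∈ l.asIdeal ∧ β.D3 ∈ l.asIdeal) ∧
        ¬ (β.c1 ∈ l.asIdeal ∧ β.c2 ∈ l.asIdeal ∧ β.c3 ∈ l.asIdeal)) := by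
  classical
  have hEb : ∀ l : HeightOneSpectrum O, (β.b1 ∈ l.asIdeal ∧ β.b2 ∈ l.asIdeal ∧
      β.b3 ∈ l.asIdeal ∧ β.D3 ∈ l.asIdeal) → β.E ∈ l.asIdeal := by
    rintro l ⟨h1, h2, h3, h4⟩
    have h5 : β.D2 ∈ l.asIdeal := by
      rw [Blk.D2]
      refine l.asIdeal.sub_mem (l.asIdeal.add_mem (l.asIdeal.mul_mem_right _ h1)
        (l.asIdeal.mul_mem_right _ h3)) (l.asIdeal.mul_mem_right _ (l.asIdeal.mul_mem_left _ h2))
    rw [Blk.E, pow_two]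
    exact l.asIdeal.sub_mem (l.asIdeal.mul_mem_left _ h4) (l.asIdeal.mul_mem_left _ h5)
  have hfin := Pool.Agent.H28.A4.fin_dvd β.E hE
  have hSb : {l : HeightOneSpectrum O | m ∉ l.asIdeal ∧ (β.b1 ∈ l.asIdeal ∧ β.b2 ∈ l.asIdeal ∧
      β.b3 ∈ l.asIdeal ∧ β.D3 ∈ l.asIdeal) ∧
      ¬ (β.c1 ∈ l.asIdeal ∧ β.c2 ∈ l.asIdeal ∧ β.c3 ∈ l.asIdeal)}.Finite :=
    hfin.subset fun l hl => hEb l hl.2.1
  have mb : ∀ l, l ∈ hSb.toFinset ↔ m ∉ l.asIdeal ∧ (β.b1 ∈ l.asIdeal ∧ β.b2 ∈ l.asIdeal ∧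
      β.b3 ∈ l.asIdeal ∧ β.D3 ∈ l.asIdeal) ∧
      ¬ (β.c1 ∈ l.asIdeal ∧ β.c2 ∈ l.asIdeal ∧ β.c3 ∈ l.asIdeal) := fun l => hSb.mem_toFinset
  have hpr : ∀ (S : Finset (HeightOneSpectrum O)) (l : HeightOneSpectrum O),
      (∏ l ∈ S, l.asIdeal) ≤ l.asIdeal → l ∈ S := by
    intro S l h
    obtain ⟨l', hl', hle⟩ := (Ideal.IsPrime.prod_le l.isPrime).1 h
    have := l'.isMaximal.eq_of_le l.isPrime.ne_top hle
    rwa [← HeightOneSpectrum.ext this]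
  have hpl : ∀ (S : Finset (HeightOneSpectrum O)) (l : HeightOneSpectrum O), l ∈ S →
      (∏ l ∈ S, l.asIdeal) ≤ l.asIdeal := fun S l hl =>
    Ideal.dvd_iff_le.1 (Finset.dvd_prod_of_mem (fun l : HeightOneSpectrum O => l.asIdeal) hl)
  refine ⟨∏ l ∈ hSb.toFinset, l.asIdeal, Pool.Agent.H28.A4.sqf_prod _,
    ⟨Pool.Agent.H28.A4.mem_prod _ _ ?_, Pool.Agent.H28.A4.mem_prod _ _ ?_, Pool.Agent.H28.A4.mem_prod _ _ ?_⟩, ?_⟩
  · intro l hl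
    exact ((mb l).1 hl).2.1.1
  · intro l hl
    exact ((mb l).1 hl).2.1.2.1
  · intro l hl
    exact ((mb l).1 hl).2.1.2.2.1
  · intro l
    rw [← mb]
    exact ⟨hpr _ l, hpl _ l⟩

variable {k M : Type} [Field k] [NumberField k] [Field M] [NumberField M] [Algebra k M]

theorem cop_g {τ : M ≃ₐ[k] M} (hτ : Invo k M τ) (b : T3 M) (m : 𝓞 M) (g : Ideal (𝓞 M)) (hg : Squarefree g)
    (h : ∀ l : HeightOneSpectrum (𝓞 M), g ≤ l.asIdeal ↔ (m ∉ l.asIdeal ∧ ((bk τ b).b1 ∈ l.asIdeal ∧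
      (bk τ b).b2 ∈ l.asIdeal ∧ (bk τ b).b3 ∈ l.asIdeal ∧ (bk τ b).D3 ∈ l.asIdeal) ∧
        ¬ ((bk τ b).c1 ∈ l.asIdeal ∧ (bk τ b).c2 ∈ l.asIdeal ∧ (bk τ b).c3 ∈ l.asIdeal))) :
    IsCoprime g (cI τ g) := by
  rw [Ideal.isCoprime_iff_sup_eq]
  by_contra hcon
  obtain ⟨P, hP, hle⟩ := Ideal.exists_le_maximal _ hcon
  have hgP : g ≤ P := le_sup_left.trans hle
  have hcP : cI τ g ≤ P := le_sup_right.trans hle
  have hP0 : P ≠ ⊥ := by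
    rintro rfl
    exact hg.ne_zero (by rw [Ideal.zero_eq_bot]; exact le_bot_iff.1 hgP)
  let w : HeightOneSpectrum (𝓞 M) := ⟨P, hP.isPrime, hP0⟩
  have h1 := (h w).1 hgP
  have h2 := (h (cw hτ w)).1 ((cI_le hτ).1 hcP)
  exact h1.2.2 ⟨h2.2.1.1, h2.2.1.2.1, h2.2.1.2.2.1⟩

/-- one prime over `l` is enough -/
theorem pass {τ : M ≃ₐ[k] M} (hτ : Invo k M τ) (b : T3 M) (hE : (bk τ b).E ≠ 0) (g : Ideal (𝓞 M)) (m2 : ℕ)
    {π π' : Row (𝓞 M)} (h : π.Cj τ) (h' : π'.Cj τ) (w : HeightOneSpectrum (𝓞 M))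
    (hw : ∀ x ∈ g * cI τ g, (m2 : 𝓞 M) * x * (bk τ b).br π π' ∈ w.asIdeal ^ od w (bk τ b).E)
    {w' : HeightOneSpectrum (𝓞 M)} (ho : lo k w' = lo k w) :
    ∀ x ∈ g * cI τ g, (m2 : 𝓞 M) * x * (bk τ b).br π π' ∈ w'.asIdeal ^ od w' (bk τ b).E := by
  rcases over_eq hτ ho with rfl | rfl
  · exact hw
  · intro x hx
    rw [mem_cw, od_cw hτ w hE, bk_E hτ, tO_mul, tO_mul, tO_nat, bk_br hτ b h h']
    exact hw _ (mem_mul_cI hτ g hx)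

theorem cls_le (n : ℕ) : 2 * n + 1 ≤ (n + 1) ^ 96 := by
  have h3 : (n + 1) ^ 2 ≤ (n + 1) ^ 96 := Nat.pow_le_pow_right (Nat.succ_pos _) (by norm_num)
  refine le_trans ?_ h3
  nlinarith

theorem mem_lo_nat (w : HeightOneSpectrum (𝓞 M)) (n : ℕ) : (n : 𝓞 k) ∈ (lo k w).asIdeal ↔ (n : 𝓞 M) ∈ w.asIdeal := by
  rw [mem_lo, map_natCast]

/-- the class function at one prime of `k` -/
theorem loc_one {τ : M ≃ₐ[k] M} {ω : M} (hτ : Omk τ ω) {m0 : ℕ} (hm0 : m0 ≠ 0) (b : T3 M) (hE : (bk τ b).E ≠ 0)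
    (hek : ek τ b ≠ 0) (g : Ideal (𝓞 M))
    (hg : ∀ l : HeightOneSpectrum (𝓞 M), g ≤ l.asIdeal ↔ (((6 * m0 : ℕ) : 𝓞 M) ∉ l.asIdeal ∧ ((bk τ b).b1 ∈ l.asIdeal ∧
      (bk τ b).b2 ∈ l.asIdeal ∧ (bk τ b).b3 ∈ l.asIdeal ∧ (bk τ b).D3 ∈ l.asIdeal) ∧
        ¬ ((bk τ b).c1 ∈ l.asIdeal ∧ (bk τ b).c2 ∈ l.asIdeal ∧ (bk τ b).c3 ∈ l.asIdeal)))
    (l : HeightOneSpectrum (𝓞 k)) (hl : ek τ b ∈ l.asIdeal) :
    ∃ cl : Row (𝓞 M) → ℕ, (∀ π, cl π < lf2 (6 * m0) (dt b) g l.asIdeal (od l (ek τ b))) ∧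
      ∀ π π' : Row (𝓞 M), π.Cj τ → π'.Cj τ → (∀ w : HeightOneSpectrum (𝓞 M), H1.LC.LS w (m0 : 𝓞 M) (bk τ b) π) →
        (∀ w : HeightOneSpectrum (𝓞 M), H1.LC.LS w (m0 : 𝓞 M) (bk τ b) π') → cl π = cl π' →
        ∀ w : HeightOneSpectrum (𝓞 M), lo k w = l → ∀ x ∈ g * cI τ g,
          (((6 * m0) ^ 48 : ℕ) : 𝓞 M) * x * (bk τ b).br π π' ∈ w.asIdeal ^ od w (bk τ b).E := by
  have hcast : ((6 * m0 : ℕ) : 𝓞 M) = 6 * (m0 : 𝓞 M) := by push_cast; rfl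
  have hcast2 : ((((6 * m0) ^ 48 : ℕ)) : 𝓞 M) = (6 * (m0 : 𝓞 M)) ^ 48 := by push_cast; rfl
  have hMO : (m0 : 𝓞 M) ≠ 0 := by exact_mod_cast hm0
  have hi := hτ.1
  have hEe : (bk τ b).E = algebraMap (𝓞 k) (𝓞 M) (ek τ b) := (ek_spec hi b).symm
  have hEw : ∀ w : HeightOneSpectrum (𝓞 M), lo k w = l → (bk τ b).E ∈ w.asIdeal := by
    intro w hw
    rw [hEe, ← mem_lo, hw]
    exact hl
  -- a prime of `M` over `l` with the local divisibility is enough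
  have red : ∀ w : HeightOneSpectrum (𝓞 M), lo k w = l → ∀ N : ℕ,
      (∃ cl : Row (𝓞 M) → ℕ, (∀ π, cl π < N) ∧ ∀ π π' : Row (𝓞 M), H1.LC.LS w (m0 : 𝓞 M) (bk τ b) π →
        H1.LC.LS w (m0 : 𝓞 M) (bk τ b) π' → cl π = cl π' → ∀ x ∈ g * cI τ g,
          (((6 * m0) ^ 48 : ℕ) : 𝓞 M) * x * (bk τ b).br π π' ∈ w.asIdeal ^ od w (bk τ b).E) →
      ∃ cl : Row (𝓞 M) → ℕ, (∀ π, cl π < N) ∧
        ∀ π π' : Row (𝓞 M), π.Cj τ → π'.Cj τ → (∀ w : HeightOneSpectrum (𝓞 M), H1.LC.LS w (m0 : 𝓞 M) (bk τ b) π) →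
        (∀ w : HeightOneSpectrum (𝓞 M), H1.LC.LS w (m0 : 𝓞 M) (bk τ b) π') → cl π = cl π' →
        ∀ w : HeightOneSpectrum (𝓞 M), lo k w = l → ∀ x ∈ g * cI τ g,
          (((6 * m0) ^ 48 : ℕ) : 𝓞 M) * x * (bk τ b).br π π' ∈ w.asIdeal ^ od w (bk τ b).E := by
    rintro w hw N ⟨cl, h1, h2⟩
    refine ⟨cl, h1, fun π π' hπ hπ' hs hs' hc w' hw' => ?_⟩
    exact pass hi b hE g _ hπ hπ' w (h2 π π' (hs w) (hs' w) hc) (hw'.trans hw.symm)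
  -- a prime over `l`
  have hex : ∃ w : HeightOneSpectrum (𝓞 M), lo k w = l := by
    have hlm := l.isMaximal
    obtain ⟨P, hP, hPl⟩ := Ideal.exists_maximal_ideal_liesOver_of_isIntegral (S := 𝓞 M) l.asIdeal
    have hP0 : P ≠ ⊥ := by
      rintro rfl
      apply l.ne_bot
      rw [hPl.over]
      ext x
      rw [Ideal.mem_comap, Submodule.mem_bot, Submodule.mem_bot]
      exact map_eq_zero_iff _ (FaithfulSMul.algebraMap_injective (𝓞 k) (𝓞 M))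
    refine ⟨⟨P, hP.isPrime, hP0⟩, HeightOneSpectrum.ext ?_⟩
    exact hPl.over.symm
  have hov : ∀ w : Ideal (𝓞 M), Ov l.asIdeal w → ∃ w' : HeightOneSpectrum (𝓞 M), w'.asIdeal = w ∧ lo k w' = l := by
    rintro w ⟨h1, h2⟩
    have h0 : w ≠ ⊥ := by
      rintro rfl
      apply l.ne_bot
      rw [← h2]
      ext x
      rw [Ideal.mem_comap, Submodule.mem_bot, Submodule.mem_bot]
      exact map_eq_zero_iff _ (FaithfulSMul.algebraMap_injective (𝓞 k) (𝓞 M))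
    exact ⟨⟨w, h1, h0⟩, rfl, HeightOneSpectrum.ext h2⟩
  have hov' : ∀ w' : HeightOneSpectrum (𝓞 M), lo k w' = l → Ov l.asIdeal w'.asIdeal := by
    rintro w' rfl
    exact ⟨w'.isPrime, rfl⟩
  unfold lf2
  by_cases hA : ∃ w : Ideal (𝓞 M), Ov l.asIdeal w ∧ g ≤ w
  · rw [if_pos hA]
    obtain ⟨w0, hw0, hgw⟩ := hA
    obtain ⟨w, rfl, hw⟩ := hov w0 hw0
    apply red w hw
    have hgg := (hg w).1 hgw
    have h6 := hgg.1
    rw [hcast] at h6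
    have hD1 : (bk τ b).D1 ∈ w.asIdeal := by
      rw [Blk.D1, pow_two]
      exact w.asIdeal.sub_mem (w.asIdeal.mul_mem_right _ hgg.2.1.1) (w.asIdeal.mul_mem_right _ hgg.2.1.2.1)
    refine ⟨fun _ => 0, fun _ => Nat.one_pos, fun π π' h _ _ x hx => ?_⟩
    obtain ⟨_, hbr, hk⟩ := H1.LC.good3 w h6 (bk τ b) hE (hEw w hw) hD1 hgg.2.1.2.2.2 h
    have h1 : ((((6 * m0) ^ 48 : ℕ)) : 𝓞 M) * x ∈ w.asIdeal ^ 1 := by
      rw [pow_one]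
      exact Ideal.mul_mem_left _ _ (hgw (Ideal.mul_le_left hx))
    have h2 : (bk τ b).br π π' ∈ w.asIdeal ^ 1 := by
      rw [pow_one]
      exact hbr π'
    exact Pool.Agent.H28.A4.mul_mem_le w h1 h2 hk
  rw [if_neg hA]
  by_cases h6k : ((6 * m0 : ℕ) : 𝓞 k) ∈ l.asIdeal
  · rw [if_pos h6k]
    obtain ⟨w, hw⟩ := hex
    apply red w hw
    have h6 : 6 * (m0 : 𝓞 M) ∈ w.asIdeal := by
      rw [← hcast, ← mem_lo_nat (k := k), hw]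
      exact h6k
    obtain ⟨cl, hcl, hcl2⟩ := H1.LC.bad w hMO (by exact_mod_cast (two_ne_zero : (2 : ℕ) ≠ 0))
      (by exact_mod_cast (three_ne_zero : (3 : ℕ) ≠ 0)) h6 (bk τ b) hE
    have hcb : od w (bk τ b).E + 1 ≤ (od l (ek τ b) + 1) ^ 96 := by
      refine le_trans ?_ (cls_le (od l (ek τ b)))
      have h2 : od w (bk τ b).E ≤ 2 * od l (ek τ b) := by
        rw [hEe, ← hw]
        exact od_le hi w hek
      exact Nat.add_le_add_right h2 1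
    refine ⟨cl, fun π => (hcl π).trans_le hcb, fun π π' h h' hc x _ => ?_⟩
    have h1 := hcl2 π π' h h' hc
    have e1 : ((((6 * m0) ^ 48 : ℕ)) : 𝓞 M) * x * (bk τ b).br π π' = x * ((6 * (m0 : 𝓞 M)) ^ 48 * (bk τ b).br π π') := by
      rw [hcast2, mul_comm ((6 * (m0 : 𝓞 M)) ^ 48) x, mul_assoc]
    rw [e1]
    exact Ideal.mul_mem_left _ _ h1
  rw [if_neg h6k]
  have h6w : ∀ w : HeightOneSpectrum (𝓞 M), lo k w = l → 6 * (m0 : 𝓞 M) ∉ w.asIdeal := by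
    intro w hw h6
    apply h6k
    rw [← hcast, ← mem_lo_nat (k := k), hw] at h6
    exact h6
  have h2w : ∀ w : HeightOneSpectrum (𝓞 M), lo k w = l → (2 : 𝓞 M) ∉ w.asIdeal := by
    intro w hw h2
    apply h6w w hw
    have e : 6 * (m0 : 𝓞 M) = (3 * (m0 : 𝓞 M)) * 2 := by ring
    rw [e]
    exact Ideal.mul_mem_left _ _ h2
  have h3w : ∀ w : HeightOneSpectrum (𝓞 M), lo k w = l → (3 : 𝓞 M) ∉ w.asIdeal := by
    intro w hw h2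
    apply h6w w hw
    have e : 6 * (m0 : 𝓞 M) = (2 * (m0 : 𝓞 M)) * 3 := by ring
    rw [e]
    exact Ideal.mul_mem_left _ _ h2
  by_cases hI : ∃ w : Ideal (𝓞 M), Ov l.asIdeal w ∧ Inr (6 * m0) (dt b) w
  · rw [if_pos hI]
    obtain ⟨w0, hw0, hIw⟩ := hI
    obtain ⟨w, rfl, hw⟩ := hov w0 hw0
    apply red w hw
    refine ⟨fun _ => 0, fun _ => Nat.one_pos, ?_⟩
    rintro π π' ⟨r, r', u, v, _, hs⟩ ⟨ρ, ρ', u', v', _, hs'⟩ _ x _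
    exact Ideal.mul_mem_left _ _ (H1.LC.side_ns w (bk τ b) (h2w w hw) hIw.2.1 hIw.2.2 _ (mem_od w _ hE) hs hs')
  rw [if_neg hI]
  obtain ⟨w, hw⟩ := hex
  apply red w hw
  have hod : od w (bk τ b).E = od l (ek τ b) := by
    rw [hEe, ← hw]
    exact od_eq' hτ w (h3w w hw) hek
  rw [← hod]
  have hEk : (bk τ b).E ∈ w.asIdeal ^ od w (bk τ b).E := mem_od w _ hE
  by_cases hD1 : (bk τ b).D1 ∈ w.asIdeal
  · by_cases hD3 : (bk τ b).D3 ∈ w.asIdeal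
    · refine ⟨fun _ => 0, fun _ => Nat.succ_pos _, fun π π' h _ _ x _ => ?_⟩
      exfalso
      obtain ⟨hbc, _, _⟩ := H1.LC.good3 w (h6w w hw) (bk τ b) hE (hEw w hw) hD1 hD3 h
      rcases hbc with hb | hc
      · apply hA
        refine ⟨w.asIdeal, hov' w hw, (hg w).2 ⟨by rw [hcast]; exact h6w w hw, ⟨hb.1, hb.2.1, hb.2.2, hD3⟩, fun hc => ?_⟩⟩
        exact H1.LC.notboth w (h6w w hw) (bk τ b) h hb hc
      · apply hA
        have hcw : lo k (cw hi w) = l := (lo_cw hi w).trans hw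
        refine ⟨(cw hi w).asIdeal, hov' _ hcw, (hg _).2 ⟨by rw [hcast]; exact h6w _ hcw, ⟨hc.1, hc.2.1, hc.2.2, ?_⟩, fun hb => ?_⟩⟩
        · rw [mem_cw1, bk_D3, tO_inv hi]
          exact hD1
        · refine H1.LC.notboth w (h6w w hw) (bk τ b) h ⟨?_, ?_, ?_⟩ hc
          · have h1 : tO τ (tO τ b.1) ∈ w.asIdeal := hb.1
            rwa [tO_inv hi] at h1
          · have h1 : tO τ (tO τ b.2.1) ∈ w.asIdeal := hb.2.1
            rwa [tO_inv hi] at h1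
          · have h1 : tO τ (tO τ b.2.2) ∈ w.asIdeal := hb.2.2
            rwa [tO_inv hi] at h1
    · obtain ⟨cl, hcl, hcl2⟩ := H1.LC.good1c w (h6w w hw) (bk τ b) hD3 (od w (bk τ b).E) hEk
      exact ⟨cl, hcl, fun π π' h h' hc x _ => Ideal.mul_mem_left _ _ (hcl2 π π' h h' hc)⟩
  · obtain ⟨cl, hcl, hcl2⟩ := H1.LC.good1 w (h6w w hw) (bk τ b) hD1 (od w (bk τ b).E) hEk
    exact ⟨cl, hcl, fun π π' h h' hc x _ => Ideal.mul_mem_left _ _ (hcl2 π π' h h' hc)⟩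

/-- LOC -/
theorem loc3 (k M : Type) [Field k] [NumberField k] [Field M] [NumberField M] [Algebra k M] :
    Loc3Stmt k M := by
  intro τ ω hτ m0 hm0
  have hi := hτ.1
  refine ⟨6 * m0, (6 * m0) ^ 48, by positivity, by positivity, Dvd.intro _ rfl, ?_⟩
  intro b _ hE2
  have hE : (bk τ b).E ≠ 0 := hE2
  have hek : ek τ b ≠ 0 := by
    intro h
    apply hE
    rw [← ek_spec hi b, h, map_zero]
  obtain ⟨g, sqg, hb, hg⟩ := exists_g (bk τ b) hE ((6 * m0 : ℕ) : 𝓞 M)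
  refine ⟨g, sqg, cop_g hi b _ g sqg hg, ⟨hb.1, hb.2.1, hb.2.2⟩, ?_⟩
  obtain ⟨cl, hcl, hcl2⟩ := H1.LC.comb (pf (Ideal.span {ek τ b}))
    (fun π : Row (𝓞 M) => π.Cj τ ∧ ∀ w : HeightOneSpectrum (𝓞 M), H1.LC.LS w (m0 : 𝓞 M) (bk τ b) π)
    (fun P π π' => ∀ w : HeightOneSpectrum (𝓞 M), (lo k w).asIdeal = P → ∀ x ∈ g * cI τ g,
      ((((6 * m0) ^ 48 : ℕ)) : 𝓞 M) * x * (bk τ b).br π π' ∈ w.asIdeal ^ od w (bk τ b).E)
    (fun P => lf2 (6 * m0) (dt b) g P (H88.WS.od P (Ideal.span {ek τ b})))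
    (fun P hP => by
      obtain ⟨l, rfl, hEl⟩ := (H1.LC.pf_iff hek P).1 hP
      obtain ⟨cl, h1, h2⟩ := loc_one hτ hm0 b hE hek g hg l hEl
      rw [H1.LC.od_eq l hek]
      refine ⟨cl, h1, ?_⟩
      rintro π π' ⟨ha, hs⟩ ⟨ha', hs'⟩ hc w hw x hx
      exact h2 π π' ha ha' hs hs' hc w (HeightOneSpectrum.ext hw) x hx)
  refine ⟨cl, hcl, ?_⟩
  intro C s u u' r r' ρ ρ' π π' hc hc' ha hs ha' hs' hcc x hx
  refine Pool.Agent.H28.FP.dvd_of_local hE fun w => ?_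
  by_cases hEl : (bk τ b).E ∈ w.asIdeal
  · refine hcl2 π π' ⟨hc, fun w => ⟨r, r', u, _, H1.LC.ladm_of hm0 ha w, hs⟩⟩
      ⟨hc', fun w => ⟨ρ, ρ', u', _, H1.LC.ladm_of hm0 ha' w, hs'⟩⟩ hcc (lo k w).asIdeal
      ((H1.LC.pf_iff hek _).2 ⟨lo k w, rfl, ?_⟩) w rfl x hx
    rw [mem_lo, ek_spec hi]
    exact hEl
  · rw [H1.LC.od_zero w hEl, pow_zero, Ideal.one_eq_top]
    trivial

end H83.AQ
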